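import Mathlib

open Finset

namespace Pool.Agent.Results.MP_fb2c2a_nt.Five

/-- The polynomial `D_n(x)`. -/
def D (n : ℕ) (x : ℚ) : ℚ := ∑ k ∈ range (n + 1), n.choose k * (n + k).choose k * x ^ k

/-- `x - y` lies in `p ^ 2 ℤ_(p)`. -/
def Cong (p : ℕ) (x y : ℚ) : Prop := ¬ p ∣ ((x - y) / p ^ 2).den

theorem result : ¬ ∀ p : ℕ, p.Prime → 3 < p → Cong p (∑ k ∈ range p, D k 3 ^ 3)
    (jacobiSym (-5) p * ∑ k ∈ range p, (-1) ^ k * D k (-1 / 16) ^ 3) := fun h => by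
  have := h 5 (by norm_num) (by norm_num)
  have e : jacobiSym (-5) 5 = 0 := by norm_num
  rw [e] at this
  exact this (by decide +kernel)

end Pool.Agent.Results.MP_fb2c2a_nt.Five
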